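import Pool.Agent.Helper8.KT.Sheet

/-! Row AP of sheet KT. -/

namespace Pool.Agent.Helper89.KT

open Pool.Agent.Helper8.KT

/-- the minimum which defines `w j` -/
theorem ap_min (d : ℕ → ℕ → ℝ) (n : ℕ) (y η : ℕ → ℝ) (r : ℝ) (j : ℕ) :
    ∃ v : ℝ, v ≤ r + y j ∧ (∀ i ≤ n, v ≤ η i + d i j) ∧
      (v = r + y j ∨ ∃ i ≤ n, v = η i + d i j) := by
  obtain ⟨i0, h0, h1⟩ := Finset.exists_min_image (Finset.range (n + 1))
    (fun i => η i + d i j) ⟨0, by simp⟩
  refine ⟨min (r + y j) (η i0 + d i0 j), min_le_left _ _, ?_, ?_⟩
  · intro i hi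
    exact (min_le_right _ _).trans (h1 i (Finset.mem_range.2 (Nat.lt_succ_of_le hi)))
  · rcases min_choice (r + y j) (η i0 + d i0 j) with h | h
    · exact Or.inl h
    · exact Or.inr ⟨i0, Nat.le_of_lt_succ (Finset.mem_range.1 h0), h⟩

theorem stAP : ST_AP := by
  intro d hd n y η r hy hη hr
  choose w w1 w2 w3 using fun j => ap_min d n y η r j
  have hr0 : 0 ≤ r := (abs_nonneg _).trans (hr 0 (Nat.zero_le _))
  have lip : ∀ i j, w i ≤ w j + d i j := by
    intro i j
    rcases w3 j with h | ⟨k, hk, h⟩
    · have h2 := (abs_le.1 (hy i j).1).2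
      have h3 := w1 i
      linarith
    · have h2 := w2 i k hk
      have h3 := hd.tri k j i
      have h4 := hd.symm i j
      linarith
  refine ⟨w, ?_, ?_, ?_⟩
  · intro i j
    refine ⟨?_, ?_⟩
    · rw [abs_le]
      have h1 := lip i j
      have h2 := lip j i
      have h3 := hd.symm i j
      constructor <;> linarith
    · rcases w3 i with h | ⟨k, hk, h⟩ <;> rcases w3 j with h' | ⟨l, hl, h'⟩
      · have h2 := (hy i j).2
        linarith
      · have h2 := (abs_le.1 (hr l hl)).2
        have h3 := (hy i l).2
        have h4 := hd.tri i l j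
        linarith
      · have h2 := (abs_le.1 (hr k hk)).2
        have h3 := (hy k j).2
        have h4 := hd.tri i k j
        have h5 := hd.symm i k
        linarith
      · have h3 := (hη k l).2
        have h4 := hd.tri i k j
        have h5 := hd.tri k l j
        have h6 := hd.symm i k
        linarith
  · intro j hj
    refine le_antisymm ?_ ?_
    · have h := w2 j j hj
      rw [hd.self] at h
      linarith
    · rcases w3 j with h | ⟨k, hk, h⟩
      · have h2 := (abs_le.1 (hr j hj)).1
        linarith
      · have h2 := (abs_le.1 (hη k j).1).1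
        linarith
  · intro j
    rw [abs_le]
    constructor
    · have h := w1 j
      linarith
    · rcases w3 j with h | ⟨k, hk, h⟩
      · linarith
      · have h2 := (abs_le.1 (hr k hk)).2
        have h3 := (abs_le.1 (hy k j).1).1
        linarith

end Pool.Agent.Helper89.KT
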