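import Pool.Agent.Helper8.KT.Sheet2
import Pool.Agent.Helper94.SR.Emb

/-! Row DC0 of sheet KT. -/

open scoped ZeroAtInfty
open Set Filter Topology

namespace Pool.Agent.Helper89.KT

open Pool.Agent.Helper94.SR

variable {Z : Type*} [NormedAddCommGroup Z] [NormedSpace ℝ Z]

omit [NormedSpace ℝ Z] in
theorem dc_fin (i : ℕ) (z : Z) (ε : ℝ) (hε : 0 < ε) :
    {j : ℕ | ε ≤ ‖(if j = i then z else 0 : Z)‖}.Finite := by
  refine (Set.finite_singleton i).subset fun j hj => ?_
  by_contra h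
  have h1 : ¬ j = i := h
  have h2 : ε ≤ ‖(if j = i then z else 0 : Z)‖ := hj
  rw [if_neg h1, norm_zero] at h2
  linarith

/-- the embedding of a coordinate -/
noncomputable def sg (i : ℕ) : Z →L[ℝ] C₀(ℕ, Z) :=
  LinearMap.mkContinuous
    { toFun := fun z => mk0 (fun j => if j = i then z else 0) (dc_fin i z)
      map_add' := fun x y => by
        ext j
        rw [ZeroAtInftyContinuousMap.add_apply, mk0_apply, mk0_apply, mk0_apply]
        by_cases h : j = i
        · rw [if_pos h, if_pos h, if_pos h]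
        · rw [if_neg h, if_neg h, if_neg h, add_zero]
      map_smul' := fun a x => by
        ext j
        rw [RingHom.id_apply, ZeroAtInftyContinuousMap.smul_apply, mk0_apply, mk0_apply]
        by_cases h : j = i
        · rw [if_pos h, if_pos h]
        · rw [if_neg h, if_neg h, smul_zero] } 1 fun x => by
    rw [one_mul]
    refine (c0_norm_le _ (norm_nonneg x)).2 fun j => ?_
    change ‖(if j = i then x else 0 : Z)‖ ≤ ‖x‖
    by_cases h : j = i
    · rw [if_pos h]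
    · rw [if_neg h, norm_zero]
      exact norm_nonneg x

theorem sg_apply (i : ℕ) (z : Z) (j : ℕ) : sg i z j = if j = i then z else 0 := rfl

/-- the evaluation -/
noncomputable def ev (i : ℕ) : C₀(ℕ, Z) →L[ℝ] Z :=
  LinearMap.mkContinuous
    { toFun := fun x => x i
      map_add' := fun _ _ => rfl
      map_smul' := fun _ _ => rfl } 1 fun x => by
    rw [one_mul]
    exact c0_apply_le x i

theorem ev_apply (i : ℕ) (x : C₀(ℕ, Z)) : ev i x = x i := rfl

/-- truncation -/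
noncomputable def tr (n : ℕ) (x : C₀(ℕ, Z)) : C₀(ℕ, Z) := ∑ i : Fin n, sg (i : ℕ) (x (i : ℕ))

theorem tr_apply (n : ℕ) (x : C₀(ℕ, Z)) (j : ℕ) : tr n x j = if j < n then x j else 0 := by
  have h : tr n x j = ∑ i : Fin n, (if j = (i : ℕ) then x (i : ℕ) else 0) := by
    rw [← ev_apply j (tr n x)]
    unfold tr
    rw [map_sum]
    rfl
  rw [h]
  by_cases hj : j < n
  · rw [if_pos hj, Finset.sum_eq_single (⟨j, hj⟩ : Fin n)]
    · rw [if_pos rfl]
    · intro b _ hb
      rw [if_neg]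
      intro h1
      exact hb (Fin.ext h1.symm)
    · intro h1
      exact absurd (Finset.mem_univ _) h1
  · rw [if_neg hj]
    refine Finset.sum_eq_zero fun i _ => ?_
    rw [if_neg]
    intro h1
    exact hj (h1 ▸ i.2)

/-- the map to the dual -/
noncomputable def TT (n : ℕ) (g : Fin n → StrongDual ℝ Z) : StrongDual ℝ C₀(ℕ, Z) :=
  ∑ i : Fin n, (g i).comp (ev (i : ℕ))

theorem TT_cont (n : ℕ) : Continuous (TT (Z := Z) n) := by
  unfold TT
  exact continuous_finsetSum _ fun i _ => (continuous_apply i).clm_comp continuous_const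

theorem TT_apply (n : ℕ) (f : StrongDual ℝ C₀(ℕ, Z)) (x : C₀(ℕ, Z)) :
    TT n (fun i => f.comp (sg (i : ℕ))) x = f (tr n x) := by
  unfold TT tr
  rw [sum_apply, map_sum]
  rfl

theorem dc_key (n : ℕ) (f : StrongDual ℝ C₀(ℕ, Z)) (x y : C₀(ℕ, Z)) (hx : ‖x‖ ≤ 1)
    (hy : ‖y‖ ≤ 1) : f (tr n x) + f (y - tr n y) ≤ ‖f‖ := by
  rw [← map_add]
  have h : ‖tr n x + (y - tr n y)‖ ≤ 1 := by
    refine (c0_norm_le _ zero_le_one).2 fun j => ?_
    rw [ZeroAtInftyContinuousMap.add_apply, ZeroAtInftyContinuousMap.sub_apply, tr_apply, tr_apply]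
    by_cases hj : j < n
    · rw [if_pos hj, if_pos hj, sub_self, add_zero]
      exact (c0_apply_le x j).trans hx
    · rw [if_neg hj, if_neg hj, sub_zero, zero_add]
      exact (c0_apply_le y j).trans hy
  calc f (tr n x + (y - tr n y)) ≤ ‖f (tr n x + (y - tr n y))‖ := le_abs_self _
    _ ≤ ‖f‖ * ‖tr n x + (y - tr n y)‖ := f.le_opNorm _
    _ ≤ ‖f‖ * 1 := by gcongr
    _ = ‖f‖ := mul_one _

theorem dc_tail (x : C₀(ℕ, Z)) (δ : ℝ) (hδ : 0 < δ) : ∃ n, ‖x - tr n x‖ ≤ δ := by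
  obtain ⟨n, hn⟩ := (c0_finite x hδ).bddAbove
  refine ⟨n + 1, (c0_norm_le _ hδ.le).2 fun j => ?_⟩
  rw [ZeroAtInftyContinuousMap.sub_apply, tr_apply]
  by_cases hj : j < n + 1
  · rw [if_pos hj, sub_self, norm_zero]
    exact hδ.le
  · rw [if_neg hj, sub_zero]
    by_contra h
    have h1 : j ≤ n := hn (not_le.1 h).le
    omega

theorem dc_dense (f : StrongDual ℝ C₀(ℕ, Z)) (ε : ℝ) (hε : 0 < ε) :
    ∃ n, ‖f - TT n (fun i => f.comp (sg (i : ℕ)))‖ ≤ ε := by
  obtain ⟨x, hx1, hx2⟩ : ∃ x : C₀(ℕ, Z), ‖x‖ ≤ 1 ∧ ‖f‖ - ε / 2 < f x := by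
    obtain ⟨x, h1, h2⟩ := f.exists_lt_apply_of_lt_opNorm (r := ‖f‖ - ε / 2) (by linarith)
    rcases le_total 0 (f x) with h | h
    · refine ⟨x, h1.le, ?_⟩
      rwa [Real.norm_of_nonneg h] at h2
    · refine ⟨-x, by rw [norm_neg]; exact h1.le, ?_⟩
      rw [map_neg]
      rwa [Real.norm_of_nonpos h] at h2
  obtain ⟨n, hn⟩ := dc_tail x (ε / 2 / (‖f‖ + 1)) (by positivity)
  refine ⟨n, ContinuousLinearMap.opNorm_le_of_unit_norm hε.le fun y hy => ?_⟩
  have h3 : f x - f (tr n x) ≤ ε / 2 := by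
    rw [← map_sub]
    calc f (x - tr n x) ≤ ‖f (x - tr n x)‖ := le_abs_self _
      _ ≤ ‖f‖ * ‖x - tr n x‖ := f.le_opNorm _
      _ ≤ (‖f‖ + 1) * (ε / 2 / (‖f‖ + 1)) := by
        gcongr
        linarith
      _ = ε / 2 := by field_simp
  have h4 := dc_key n f x y hx1 hy.le
  have h5 := dc_key n f x (-y) hx1 (by rw [norm_neg]; exact hy.le)
  have h6 : tr n (-y) = - tr n y := by
    ext j
    rw [ZeroAtInftyContinuousMap.neg_apply, tr_apply, tr_apply,
      ZeroAtInftyContinuousMap.neg_apply]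
    by_cases hj : j < n
    · rw [if_pos hj, if_pos hj]
    · rw [if_neg hj, if_neg hj, neg_zero]
  have h7 : f (-y - tr n (-y)) = - f (y - tr n y) := by
    rw [h6, ← map_neg]
    congr 1
    abel
  rw [sub_apply, TT_apply, ← map_sub, Real.norm_eq_abs, abs_le]
  constructor <;> linarith

theorem stDC0.{u} : Pool.Agent.Helper8.KT.ST_DC0.{u} := by
  intro Z _ _ _
  have h1 : TopologicalSpace.IsSeparable (⋃ n : ℕ, range (TT (Z := Z) n)) :=
    TopologicalSpace.IsSeparable.iUnion fun n => TopologicalSpace.isSeparable_range (TT_cont n)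
  have h2 : (closure (⋃ n : ℕ, range (TT (Z := Z) n))) = univ := by
    refine eq_univ_of_forall fun f => ?_
    have key : ∀ ε > 0, ∃ b ∈ (⋃ n : ℕ, range (TT (Z := Z) n)), dist f b < ε := by
      intro ε hε
      obtain ⟨n, hn⟩ := dc_dense f (ε / 2) (by linarith)
      refine ⟨TT n (fun i => f.comp (sg (i : ℕ))), mem_iUnion.2 ⟨n, ⟨_, rfl⟩⟩, ?_⟩
      exact lt_of_eq_of_lt (dist_eq_norm f _) (lt_of_le_of_lt hn (by linarith))
    exact Metric.mem_closure_iff.2 key
  have h3 := h1.closure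
  rw [h2] at h3
  exact TopologicalSpace.isSeparable_univ_iff.1 h3

end Pool.Agent.Helper89.KT
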